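import Mathlib
import Pool.Agent.Q133.UnitK2

set_option autoImplicit false

/-!
# The unit distance graph of `ℚ(√3, √11)²` has chromatic number `4`
-/

namespace Pool.Agent.Results.MP_52ffe4_co.ChromaticNumberFour

/-- The field `ℚ(√3, √11)`, as a set of real numbers. -/
def K : Set ℝ := (IntermediateField.adjoin ℚ {√3, √11} : IntermediateField ℚ ℝ)

/-- The unit distance graph of the plane `ℝ × ℝ`. -/
def unitDistance : SimpleGraph (ℝ × ℝ) where
  Adj z w := (z.1 - w.1) ^ 2 + (z.2 - w.2) ^ 2 = 1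
  symm := ⟨fun z w h => by rw [← h]; ring⟩
  loopless := ⟨fun z h => by simp at h⟩

/-- The unit distance graph on `K × K`. -/
def GK : SimpleGraph {z : ℝ × ℝ | z.1 ∈ K ∧ z.2 ∈ K} :=
  unitDistance.induce {z : ℝ × ℝ | z.1 ∈ K ∧ z.2 ∈ K}

/-- The chromatic number of the unit distance graph on `K × K`, `K = ℚ(√3, √11)`, is four. -/
theorem result : GK.chromaticNumber = 4 := by
  have h4 : GK.Colorable 4 := by
    refine SimpleGraph.Colorable.of_hom (G' := Q133.UnitK.G)
      ⟨fun z => (⟨z.1.1, z.2.1⟩, ⟨z.1.2, z.2.2⟩), ?_⟩ Q133.UnitK.colorable_four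
    intro z w h
    exact Subtype.ext h
  have h3 : ¬ GK.Colorable 3 := by
    intro h
    apply Q133.UnitK.not_colorable_three
    refine SimpleGraph.Colorable.of_hom (G' := GK)
      ⟨fun z => ⟨(z.1.1, z.2.1), z.1.2, z.2.2⟩, ?_⟩ h
    intro z w h
    exact congrArg Subtype.val h
  apply le_antisymm
  · exact SimpleGraph.chromaticNumber_le_iff_colorable.2 h4
  · by_contra h
    rw [not_le] at h
    refine h3 (SimpleGraph.chromaticNumber_le_iff_colorable.1 ?_)
    have h5 : GK.chromaticNumber < ((3 : ℕ) : ℕ∞) + 1 := by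
      have : ((3 : ℕ) : ℕ∞) + 1 = 4 := by norm_num
      rw [this]; exact h
    exact ENat.lt_add_one_iff (by simp) |>.1 h5

end Pool.Agent.Results.MP_52ffe4_co.ChromaticNumberFour
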